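import Pool.Agent.BEW.StmtsA

set_option autoImplicit false

/-!
# Squad BEW, row AVG: the averages
-/

namespace Pool.Agent.BEW.H16

open Set Filter Topology MeasureTheory
open scoped InnerProductSpace ENNReal
open Pool.Agent.BE01 Pool.Agent.BEL Pool.Agent.BEG Pool.Agent.BEH Pool.Agent.BER

theorem nrs_mono {om : ℕ → ℝ} {J J' : ℕ} {δ : ℝ} (h : Nrs om J δ) (hJ : J' ≤ J) :
    Nrs om J' δ := by
  have hc : ∀ j : ℤ, |j| ≤ (J' : ℤ) → |j| ≤ (J : ℤ) := fun j hj =>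
    hj.trans (by exact_mod_cast hJ)
  exact ⟨h.pos, fun k j hk hj => h.n1 k j hk (hc j hj),
    fun k l j hk hl hj hn => h.n2 k l j hk hl (hc j hj) hn,
    fun k l j hk hl hj => h.n3 k l j hk hl (hc j hj)⟩

theorem prd_cos {q : ℝ} (hq : 0 ≤ q) : Prd fun θ => |Real.cos θ| ^ q :=
  ⟨(Real.continuous_cos.abs).rpow_const fun _ => Or.inr hq, fun θ => by
    show |Real.cos (θ + 2 * Real.pi)| ^ q = |Real.cos θ| ^ q
    rw [Real.cos_add_two_pi]⟩

theorem prd_cc {q : ℝ} (hq : 0 ≤ q) : Prd fun θ => |Real.cos θ| ^ q * Real.cos θ :=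
  ⟨(prd_cos hq).1.mul Real.continuous_cos, fun θ => by
    show |Real.cos (θ + 2 * Real.pi)| ^ q * Real.cos (θ + 2 * Real.pi) =
      |Real.cos θ| ^ q * Real.cos θ
    rw [Real.cos_add_two_pi]⟩

theorem prd_cs {q : ℝ} (hq : 0 ≤ q) : Prd fun θ => |Real.cos θ| ^ q * Real.sin θ :=
  ⟨(prd_cos hq).1.mul Real.continuous_sin, fun θ => by
    show |Real.cos (θ + 2 * Real.pi)| ^ q * Real.sin (θ + 2 * Real.pi) =
      |Real.cos θ| ^ q * Real.sin θ
    rw [Real.cos_add_two_pi, Real.sin_add_two_pi]⟩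

/-- **Row AVG.** -/
theorem avg (hAPE : ApeStmt) (hAFB : AfbStmt) (hAQF : AqfStmt) : AvgStmt := by
  intro al B m0 ε hal hB hm0 hε
  have hG1 : (0 : ℝ) ≤ B ^ al := Real.rpow_nonneg hB.le al
  have hG2 : (0 : ℝ) ≤ B ^ al * B := mul_nonneg hG1 hB.le
  obtain ⟨J1, h1⟩ := hAQF (fun θ => |Real.cos θ| ^ al) (B ^ al) ε (prd_cos hal.le) hG1 hε
  obtain ⟨J2, h2⟩ := hAFB (fun θ => |Real.cos θ| ^ al * Real.cos θ) (B ^ al * B) m0 ε
    (prd_cc hal.le) hG2 hm0 hε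
  obtain ⟨J3, h3⟩ := hAFB (fun θ => |Real.cos θ| ^ al * Real.sin θ) (B ^ al * B) m0 ε
    (prd_cs hal.le) hG2 hm0 hε
  refine ⟨J1 + J2 + J3, fun δ hδ => ?_⟩
  obtain ⟨T1, hT1, g1⟩ := h1 δ hδ
  obtain ⟨T2, hT2, g2⟩ := h2 δ hδ
  obtain ⟨T3, hT3, g3⟩ := h3 δ hδ
  have hq : 0 < 8 * Real.pi / ε := by positivity
  refine ⟨1 + 8 * Real.pi / ε + T1 + T2 + T3, by linarith, ?_⟩
  set T : ℝ := 1 + 8 * Real.pi / ε + T1 + T2 + T3 with hT
  intro X _ μ b om γ hO hF hN hγ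
  have hT0 : 0 ≤ T := by linarith
  have hb0 : Measurable (b 0) := hO.meas 0
  have hw : Measurable fun x => |b 0 x| ^ al := (hb0.abs).pow_const al
  have hwb : ∀ x, |(|b 0 x| ^ al)| ≤ B ^ al := by
    intro x
    rw [abs_of_nonneg (Real.rpow_nonneg (abs_nonneg _) _)]
    exact Real.rpow_le_rpow (abs_nonneg _) (hO.bdd 0 x) hal.le
  have hg : Measurable fun x => |b 0 x| ^ al * b 0 x := hw.mul hb0
  have hgb : ∀ x, |(|b 0 x| ^ al * b 0 x)| ≤ B ^ al * B := by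
    intro x
    rw [abs_mul]
    exact mul_le_mul (hwb x) (hO.bdd 0 x) (abs_nonneg _) hG1
  refine ⟨?_, ?_, ?_, ?_⟩
  · intro θ
    have hom : 1 / 2 ≤ om 0 := by
      have := hF.lo 0
      norm_num at this
      exact this
    have hK : ∀ θ : ℝ, |(|Real.cos θ| ^ (al + 2))| ≤ 1 := by
      intro θ
      rw [abs_of_nonneg (Real.rpow_nonneg (abs_nonneg _) _)]
      exact Real.rpow_le_one (abs_nonneg _) (Real.abs_cos_le_one θ) (by linarith)
    have h4 := hAPE (fun θ => |Real.cos θ| ^ (al + 2)) 1 (om 0) θ T (prd_cos (by linarith)) hK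
      hom hT0
    have h5 : 8 * Real.pi * 1 ≤ ε * T := by
      have h6 : 8 * Real.pi / ε ≤ T := by linarith
      rw [div_le_iff₀ hε] at h6
      linarith
    exact h4.trans h5
  · intro S P V θ hS
    have h4 := g1 X μ b om B m0 hO (nrs_mono hN (by omega)) T (by linarith)
      (fun x => |b 0 x| ^ al) hw hwb S P V θ hS
    have h5 := (abs_le.1 h4).1
    have h6 : T * γ * nn S P V ≤ T * mn (fun θ => |Real.cos θ| ^ al) *
        ∑ k ∈ S, (P k ^ 2 + V k ^ 2) / 2 * ∫ x, |b 0 x| ^ al * b k x ^ 2 ∂μ := by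
      rw [mul_assoc T, mul_assoc T]
      refine mul_le_mul_of_nonneg_left ?_ hT0
      unfold nn
      rw [Finset.mul_sum, Finset.mul_sum]
      refine Finset.sum_le_sum fun k hk => ?_
      have hk1 : 1 ≤ k := by
        rcases Nat.eq_zero_or_pos k with h0 | h0
        · exact absurd (h0 ▸ hk) hS
        · exact h0
      have h7 : 2 * γ ≤ mn (fun θ => |Real.cos θ| ^ al) * ∫ x, |b 0 x| ^ al * b k x ^ 2 ∂μ :=
        hγ k hk1
      have h8 : 0 ≤ (P k ^ 2 + V k ^ 2) / 2 := by positivity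
      nlinarith [mul_le_mul_of_nonneg_left h7 h8]
    have h9 : (γ - ε) * T * nn S P V = T * γ * nn S P V - ε * T * nn S P V := by ring
    rw [h9]
    linarith
  · intro S P V θ hS
    exact g2 X μ b om B hO (nrs_mono hN (by omega)) T (by linarith)
      (fun x => |b 0 x| ^ al * b 0 x) hg hgb S P V θ hS
  · intro S P V θ hS
    exact g3 X μ b om B hO (nrs_mono hN (by omega)) T (by linarith)
      (fun x => |b 0 x| ^ al * b 0 x) hg hgb S P V θ hS

end Pool.Agent.BEW.H16
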