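import Pool.Agent.BEW.StmtsP

set_option autoImplicit false

/-!
# Squad BEW, row THS: thin shells of the width `π`
-/

namespace Pool.Agent.BEW.H16

open Set Filter Topology MeasureTheory
open scoped InnerProductSpace ENNReal NNReal
open Pool.Agent.BE01 Pool.Agent.BEL Pool.Agent.BEG Pool.Agent.BEH Pool.Agent.BER

/-- the representatives of an orthonormal basis are orthonormal -/
theorem ort_rep {X : Type} [MeasurableSpace X] {μ : Measure X}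
    (e : HilbertBasis ℕ ℝ (Lp ℝ 2 μ)) (bb : ℕ → X → ℝ) (h : ∀ k, e k =ᵐ[μ] bb k) (j k : ℕ) :
    ∫ x, bb j x * bb k x ∂μ = if j = k then 1 else 0 := by
  have h1 : ⟪e j, e k⟫_ℝ = if j = k then 1 else 0 := by
    have h2 := orthonormal_iff_ite.1 e.orthonormal j k
    exact h2
  rw [← h1, L2.inner_def]
  refine integral_congr_ae ?_
  filter_upwards [h j, h k] with x hj hk
  rw [hj, hk]
  show bb j x * bb k x = ⟪bb j x, bb k x⟫_ℝ
  rw [RCLike.inner_apply, conj_trivial, mul_comm]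

/-- **Row THS.** -/
theorem ths (hNUF : NufStmt) (hDYN : DynStmt) (hAVG : AvgStmt) (hPKG : PkgStmt) (hDAT : DatStmt)
    (hMSO : MsoStmt) (hEIG : EigStmt) (hPOL : PolStmt) (hSLA : SlaStmt) : ThsStmt := by
  intro d al hd hd3 hal
  obtain ⟨g0, γ, ε1, β1, hg0, hε1, _, hβ1, hPKG⟩ := hPKG d al hd hal
  have hm0 : (0 : ℝ) < 4 * 5 ^ d := by positivity
  obtain ⟨ε, hε, hDYN⟩ := hDYN al 2 (4 * 5 ^ d) g0 hal two_pos hm0 hg0
  obtain ⟨Jn, hAVG⟩ := hAVG al 2 (4 * 5 ^ d) ε hal two_pos hm0 hε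
  obtain ⟨β2, _, hDAT⟩ := hDAT d ε1 Jn hd hd3 hε1
  refine ⟨max β1 β2, le_max_of_le_left hβ1, fun β hβ => ?_⟩
  have hβa : β1 ≤ β := le_trans (le_max_left _ _) hβ
  have hβ1' : 1 ≤ β := hβ1.trans hβa
  have hβ0 : 0 < β := by linarith
  obtain ⟨δ, s, e, Bo, lam, bb, hD⟩ := hDAT β (le_trans (le_max_right _ _) hβ)
  obtain ⟨hfin, hmass, -, -, -⟩ := hNUF d β hβ0
  have hO : Ons (nu d β) bb 2 (4 * 5 ^ d) :=
    ⟨hfin, hmass hβ1', hD.meas, hD.bdd, ort_rep e bb hD.rep⟩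
  obtain ⟨p1, p2, p3⟩ := hPKG β bb hβa hD.meas hD.cls
  obtain ⟨T, hT, hA⟩ := hAVG δ hD.nrs.pos
  have hAv := hA ℝ (nu d β) bb _ γ hO hD.frq hD.nrs p3
  obtain ⟨e0, c, C, _, hc, _, hdyn⟩ := hDYN ℝ (nu d β) bb _ γ T hO hD.frq hT hAv p1 p2
  have hfin' := hfin
  obtain ⟨P, V, L, w, hM, hR⟩ := hMSO ℝ (nu d β) e bb _ al e0 2 (4 * 5 ^ d) c C hal hD.frq hO
    hD.rep hdyn
  obtain ⟨m, J, hJ⟩ := hPOL d β hd hβ0
  refine hSLA d β al m c C J e _ P V L w hd hβ0 hal hJ hD.frq.lo (fun k => ?_) hM hc hR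
  obtain ⟨G, h1, h2⟩ := hEIG d β m (lam k) J s Bo (e k) hd hβ0 hJ hD.sb hD.bo (hD.eg k)
  refine ⟨G, h1, ?_⟩
  have h3 : 0 ≤ lam k := by
    have h4 := hD.frq.lo k
    have h5 : (0 : ℝ) < ((k : ℝ) + 1) / 2 := by positivity
    by_contra hc
    have h6 : Real.sqrt (lam k) = 0 := Real.sqrt_eq_zero_of_nonpos (le_of_lt (not_le.1 hc))
    have h7 : ((k : ℝ) + 1) / 2 ≤ Real.sqrt (lam k) := h4
    linarith
  show Wk (Sh d β (β + Real.pi)) G ((Real.sqrt (lam k)) ^ 2 • J (e k))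
  rw [Real.sq_sqrt h3]
  exact h2

end Pool.Agent.BEW.H16
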